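import Pool.Agent.L7h49.WN.Def

/-!
Project WN (helper49), part SUM: sums along the van der Corput sequence.
-/

set_option autoImplicit false

noncomputable section

namespace Pool.Agent.L7h99.WN

open Pool.Agent.L7h49.WN Finset

lemma vdc_even (n : ℕ) : vdc (2 * n) = vdc n / 2 := by
  rcases n with _ | n
  · simp [vdc]
  · have h0 : 2 * (n + 1) = (2 * n + 1) + 1 := by ring
    rw [h0, vdc]
    have h1 : (2 * n + 1 + 1) / 2 = n + 1 := by omega
    have h2 : (2 * n + 1 + 1) % 2 = 0 := by omega
    rw [h1, h2]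
    simp

lemma vdc_odd (n : ℕ) : vdc (2 * n + 1) = (vdc n + 1) / 2 := by
  rw [vdc]
  have h1 : (2 * n + 1) / 2 = n := by omega
  have h2 : (2 * n + 1) % 2 = 1 := by omega
  rw [h1, h2]
  simp

lemma vdc_mem (n : ℕ) : 0 ≤ vdc n ∧ vdc n < 1 := by
  induction n using Nat.strong_induction_on with
  | _ n ih =>
    rcases Nat.even_or_odd' n with ⟨q, rfl | rfl⟩
    · rcases Nat.eq_zero_or_pos q with h | h
      · subst h
        simp [vdc]
      · rw [vdc_even]
        have := ih q (by omega)
        constructor <;> linarith [this.1, this.2]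
    · rw [vdc_odd]
      have := ih q (by omega)
      constructor <;> linarith [this.1, this.2]

lemma sl_deriv (t : ℝ) : HasDerivAt sl (1 / ((1 + t ^ 2) * √(1 + t ^ 2))) t := by
  have hpos : (0 : ℝ) < 1 + t ^ 2 := by positivity
  have h1 : HasDerivAt (fun t : ℝ => 1 + t ^ 2) (2 * t) t := by
    simpa using ((hasDerivAt_pow 2 t).const_add 1)
  have h2 := h1.sqrt hpos.ne'
  have h3 := (hasDerivAt_id t).div h2 (Real.sqrt_pos.mpr hpos).ne'
  refine h3.congr_deriv ?_
  have hs := Real.sq_sqrt hpos.le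
  have hs0 : (0 : ℝ) < √(1 + t ^ 2) := Real.sqrt_pos.mpr hpos
  generalize √(1 + t ^ 2) = s at hs hs0
  simp only [id]
  have e : (1 : ℝ) + t ^ 2 = s ^ 2 := hs.symm
  rw [e]
  have e2 : t ^ 2 = s ^ 2 - 1 := by linarith
  field_simp
  linear_combination (-1 : ℝ) * e2

lemma sl_diff : Differentiable ℝ sl := fun t => (sl_deriv t).differentiableAt

lemma sl_mono : Monotone sl := by
  apply monotone_of_deriv_nonneg sl_diff
  intro t
  rw [(sl_deriv t).deriv]
  positivity

lemma sl_lip {x y : ℝ} (h : x ≤ y) : sl y - sl x ≤ y - x := by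
  have := image_sub_le_mul_sub_of_deriv_le (C := 1) sl_diff (fun t => by
    rw [(sl_deriv t).deriv]
    have h1 : (1 : ℝ) ≤ 1 + t ^ 2 := by nlinarith [sq_nonneg t]
    have h2 : (1 : ℝ) ≤ √(1 + t ^ 2) := by
      rw [← Real.sqrt_one]
      exact Real.sqrt_le_sqrt (by rw [Real.sqrt_one]; exact h1)
    rw [div_le_one (by positivity)]
    nlinarith) h
  linarith

lemma sl_concave : ConcaveOn ℝ (Set.Ici (0 : ℝ)) sl := by
  apply AntitoneOn.concaveOn_of_deriv (convex_Ici 0) sl_diff.continuous.continuousOn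
    sl_diff.differentiableOn
  rw [interior_Ici]
  intro x hx y hy hxy
  rw [(sl_deriv x).deriv, (sl_deriv y).deriv]
  have hx0 : (0 : ℝ) < x := hx
  apply one_div_le_one_div_of_le (by positivity)
  gcongr

variable {w : ℝ}

lemma F_mono : Monotone (F w) := by
  intro x y h
  exact min_le_min (sl_mono (by linarith)) le_rfl

lemma F_lip {x y : ℝ} (h : x ≤ y) : F w y - F w x ≤ (y - x) / 2 := by
  unfold F
  have h1 := sl_lip (x := x / 2) (y := y / 2) (by linarith)
  have h2 := sl_mono (show x / 2 ≤ y / 2 by linarith)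
  rcases le_total (sl (x / 2)) w with h3 | h3
  · rw [min_eq_left h3]
    have := min_le_left (sl (y / 2)) w
    linarith
  · rw [min_eq_right h3]
    have := min_le_right (sl (y / 2)) w
    linarith

lemma F_cont : Continuous (F w) := by
  unfold F
  exact (sl_diff.continuous.comp (continuous_id.div_const 2)).min continuous_const

lemma F_conc {x y p q : ℝ} (hx : 0 ≤ x) (hy : 0 ≤ y) (hp : 0 ≤ p) (hq : 0 ≤ q)
    (hpq : p + q = 1) : p * F w x + q * F w y ≤ F w (p * x + q * y) := by
  have h1 := sl_concave.2 (show (x / 2) ∈ Set.Ici (0 : ℝ) by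
    show (0 : ℝ) ≤ x / 2
    linarith) (show (y / 2) ∈ Set.Ici (0 : ℝ) by
    show (0 : ℝ) ≤ y / 2
    linarith) hp hq hpq
  simp only [smul_eq_mul] at h1
  have e : p * (x / 2) + q * (y / 2) = (p * x + q * y) / 2 := by ring
  rw [e] at h1
  have a1 : F w x ≤ sl (x / 2) := min_le_left _ _
  have a2 : F w y ≤ sl (y / 2) := min_le_left _ _
  have b1 : F w x ≤ w := min_le_right _ _
  have b2 : F w y ≤ w := min_le_right _ _
  refine le_min ?_ ?_
  · calc p * F w x + q * F w y ≤ p * sl (x / 2) + q * sl (y / 2) := by gcongr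
      _ ≤ _ := h1
  · calc p * F w x + q * F w y ≤ p * w + q * w := by gcongr
      _ = w := by rw [← add_mul, hpq, one_mul]

lemma F_mid {x y : ℝ} (hx : 0 ≤ x) (hy : 0 ≤ y) : F w x + F w y ≤ 2 * F w ((x + y) / 2) := by
  have := F_conc (w := w) hx hy (p := 1 / 2) (q := 1 / 2) (by norm_num) (by norm_num)
    (by norm_num)
  have e : (1 : ℝ) / 2 * x + 1 / 2 * y = (x + y) / 2 := by ring
  rw [e] at this
  linarith

/-- the symmetrised function -/
def P (w x : ℝ) : ℝ := F w x + F w (1 - x) - 2 * J w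

lemma P_cont : Continuous (P w) := by
  unfold P
  exact (F_cont.add (F_cont.comp (continuous_const.sub continuous_id))).sub continuous_const

lemma P_int : ∫ x in (0 : ℝ)..1, P w x = 0 := by
  unfold P
  have i1 : IntervalIntegrable (fun x => F w x) MeasureTheory.volume 0 1 :=
    F_cont.intervalIntegrable _ _
  have i2 : IntervalIntegrable (fun x => F w (1 - x)) MeasureTheory.volume 0 1 :=
    (F_cont.comp (continuous_const.sub continuous_id)).intervalIntegrable _ _
  rw [intervalIntegral.integral_sub (i1.add i2) (by simp),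
    intervalIntegral.integral_add i1 i2, intervalIntegral.integral_comp_sub_left (fun x => F w x)]
  simp [J]
  ring

lemma sum_double (g : ℕ → ℝ) (q : ℕ) :
    ∑ j ∈ range (2 * q), g j = ∑ i ∈ range q, (g (2 * i) + g (2 * i + 1)) := by
  induction q with
  | zero => simp
  | succ q ih =>
    rw [show 2 * (q + 1) = 2 * q + 1 + 1 by ring, sum_range_succ, sum_range_succ, ih,
      sum_range_succ]
    ring

lemma int_sum (N : ℕ) (hN : 0 < N) :
    ∫ x in (0 : ℝ)..1, ∑ i ∈ range N, P w ((x + i) / N) = 0 := by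
  have hN0 : (N : ℝ) ≠ 0 := by exact_mod_cast hN.ne'
  rw [intervalIntegral.integral_finset_sum]
  · have h1 : ∀ i ∈ range N, ∫ x in (0 : ℝ)..1, P w ((x + i) / N) =
        (N : ℝ) * ∫ x in ((i : ℝ) / N)..((i + 1 : ℕ) : ℝ) / N, P w x := by
      intro i _
      have e : (fun x : ℝ => P w ((x + i) / N)) = fun x : ℝ => P w (x / N + i / N) := by
        funext x
        rw [add_div]
      rw [e, intervalIntegral.integral_comp_div_add (fun x => P w x) hN0]
      rw [smul_eq_mul]
      congr 2
      · rw [zero_div, zero_add]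
      · push_cast
        rw [add_div, add_comm]
    rw [sum_congr rfl h1, ← mul_sum,
      intervalIntegral.sum_integral_adjacent_intervals (a := fun i : ℕ => (i : ℝ) / N)
        (fun k _ => P_cont.intervalIntegrable _ _)]
    simp only [Nat.cast_zero, zero_div, div_self hN0]
    rw [P_int, mul_zero]
  · intro i _
    exact (P_cont.comp ((continuous_id.add continuous_const).div_const _)).intervalIntegrable _ _

lemma reflect (N : ℕ) (hN : 0 < N) (x : ℝ) :
    ∑ i ∈ range N, P w ((x + i) / N) =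
      ∑ i ∈ range N, (F w ((i + x) / N) + F w ((i + 1 - x) / N) - 2 * J w) := by
  have hN0 : (N : ℝ) ≠ 0 := by exact_mod_cast hN.ne'
  have h1 : ∑ i ∈ range N, F w (1 - (x + i) / N) = ∑ i ∈ range N, F w ((i + 1 - x) / N) := by
    rw [← sum_range_reflect]
    refine sum_congr rfl fun i hi => ?_
    have hi' := mem_range.mp hi
    congr 1
    have e : ((N - 1 - i : ℕ) : ℝ) = (N : ℝ) - 1 - i := by
      rw [Nat.cast_sub (by omega), Nat.cast_sub (by omega)]
      simp
    rw [e]
    field_simp
    ring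
  unfold P
  simp only [sum_sub_distrib, sum_add_distrib]
  rw [h1]
  congr 2
  refine sum_congr rfl fun i _ => ?_
  rw [add_comm x]

lemma bound (N : ℕ) (hN : 0 < N) (x : ℝ) (hx0 : 0 ≤ x) (hx1 : x ≤ 1) :
    |∑ i ∈ range N, P w ((x + i) / N)| ≤ 1 / (4 * N) := by
  have hNp : (0 : ℝ) < N := by exact_mod_cast hN
  set Lo : ℝ := ∑ i ∈ range N, (F w ((i : ℝ) / N) + F w ((i + 1) / N) - 2 * J w) with hLo
  set Up : ℝ := ∑ i ∈ range N, (2 * F w ((i + 1 / 2) / N) - 2 * J w) with hUp
  have key : ∀ y : ℝ, 0 ≤ y → y ≤ 1 → Lo ≤ ∑ i ∈ range N, P w ((y + i) / N) ∧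
      ∑ i ∈ range N, P w ((y + i) / N) ≤ Up := by
    intro y hy0 hy1
    rw [reflect N hN]
    constructor
    · refine sum_le_sum fun i _ => ?_
      have h1 := F_conc (w := w) (x := (i : ℝ) / N) (y := (i + 1) / N) (p := 1 - y) (q := y)
        (by positivity) (by positivity) (by linarith) hy0 (by ring)
      have h2 := F_conc (w := w) (x := (i : ℝ) / N) (y := (i + 1) / N) (p := y) (q := 1 - y)
        (by positivity) (by positivity) hy0 (by linarith) (by ring)
      have e1 : (1 - y) * ((i : ℝ) / N) + y * ((i + 1) / N) = (i + y) / N := by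
        field_simp
        ring
      have e2 : y * ((i : ℝ) / N) + (1 - y) * ((i + 1) / N) = (i + 1 - y) / N := by
        field_simp
        ring
      rw [e1] at h1
      rw [e2] at h2
      linarith
    · refine sum_le_sum fun i _ => ?_
      have hi : (0 : ℝ) ≤ i := Nat.cast_nonneg i
      have h1 := F_mid (w := w) (x := ((i : ℝ) + y) / N) (y := (i + 1 - y) / N)
        (by positivity) (div_nonneg (by linarith) hNp.le)
      have e1 : (((i : ℝ) + y) / N + (i + 1 - y) / N) / 2 = (i + 1 / 2) / N := by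
        field_simp
        ring
      rw [e1] at h1
      linarith
  have hcont : Continuous fun y : ℝ => ∑ i ∈ range N, P w ((y + i) / N) :=
    continuous_finset_sum _ fun i _ =>
      P_cont.comp ((continuous_id.add continuous_const).div_const _)
  have hI := int_sum (w := w) N hN
  have hLo0 : Lo ≤ 0 := by
    have := intervalIntegral.integral_mono_on (a := (0 : ℝ)) (b := 1) (μ := MeasureTheory.volume)
      (f := fun _ => Lo) (g := fun y : ℝ => ∑ i ∈ range N, P w ((y + i) / N)) (by norm_num)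
      (by simp) (hcont.intervalIntegrable _ _) (fun y hy => (key y hy.1 hy.2).1)
    rw [hI] at this
    simpa using this
  have hUp0 : 0 ≤ Up := by
    have := intervalIntegral.integral_mono_on (a := (0 : ℝ)) (b := 1) (μ := MeasureTheory.volume)
      (f := fun y : ℝ => ∑ i ∈ range N, P w ((y + i) / N)) (g := fun _ => Up) (by norm_num)
      (hcont.intervalIntegrable _ _) (by simp) (fun y hy => (key y hy.1 hy.2).2)
    rw [hI] at this
    simpa using this
  -- the difference
  set d : ℕ → ℝ := fun i => F w ((i + 1 / 2) / N) - F w ((i : ℝ) / N) with hd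
  have hstep : ∀ i : ℕ, 2 * F w (((i : ℝ) + 1 / 2) / N) - F w ((i : ℝ) / N) -
      F w (((i : ℝ) + 1) / N) ≤ d i - d (i + 1) := by
    intro i
    have hi : (0 : ℝ) ≤ i := Nat.cast_nonneg i
    have h1 := F_mid (w := w) (x := ((i : ℝ) + 1 / 2) / N) (y := (((i + 1 : ℕ) : ℝ) + 1 / 2) / N)
      (by positivity) (by positivity)
    have e1 : (((i : ℝ) + 1 / 2) / N + (((i + 1 : ℕ) : ℝ) + 1 / 2) / N) / 2 =
        ((i : ℝ) + 1) / N := by
      push_cast
      field_simp
      ring
    rw [e1] at h1
    have e2 : (((i + 1 : ℕ) : ℝ)) / N = ((i : ℝ) + 1) / N := by push_cast; ring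
    simp only [hd]
    rw [e2]
    linarith
  have hdiff : Up - Lo ≤ 1 / (4 * N) := by
    have h1 : Up - Lo = ∑ i ∈ range N, (2 * F w (((i : ℝ) + 1 / 2) / N) - F w ((i : ℝ) / N) -
        F w (((i : ℝ) + 1) / N)) := by
      rw [hUp, hLo, ← sum_sub_distrib]
      refine sum_congr rfl fun i _ => ?_
      ring
    rw [h1]
    calc _ ≤ ∑ i ∈ range N, (d i - d (i + 1)) := sum_le_sum fun i _ => hstep i
      _ = d 0 - d N := sum_range_sub' d N
      _ ≤ d 0 := by
        have : 0 ≤ d N := by
          simp only [hd]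
          have := F_mono (w := w) (show (N : ℝ) / N ≤ (N + 1 / 2) / N by gcongr; linarith)
          linarith
        linarith
      _ ≤ 1 / (4 * N) := by
        simp only [hd]
        have := F_lip (w := w) (x := ((0 : ℕ) : ℝ) / N) (y := (((0 : ℕ) : ℝ) + 1 / 2) / N)
          (by gcongr; linarith)
        have e : ((((0 : ℕ) : ℝ) + 1 / 2) / N - ((0 : ℕ) : ℝ) / N) / 2 = 1 / (4 * N) := by
          push_cast
          field_simp
          ring
        rw [e] at this
        exact this
  obtain ⟨k1, k2⟩ := key x hx0 hx1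
  rw [abs_le]
  constructor <;> linarith

/-- the iterated transfer -/
def tm (w : ℝ) (m : ℕ) (x : ℝ) : ℝ := ∑ i ∈ range (2 ^ m), P w ((x + i) / (2 ^ m : ℕ))

lemma tm_bound (m : ℕ) (x : ℝ) (hx0 : 0 ≤ x) (hx1 : x ≤ 1) : |tm w m x| ≤ 1 / (4 * 2 ^ m) := by
  have := bound (w := w) (2 ^ m) (by positivity) x hx0 hx1
  unfold tm
  push_cast at this ⊢
  exact this

lemma tm_succ (m : ℕ) (x : ℝ) : tm w m (x / 2) + tm w m ((x + 1) / 2) = tm w (m + 1) x := by
  unfold tm
  rw [show 2 ^ (m + 1) = 2 * 2 ^ m by ring, sum_double, ← sum_add_distrib]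
  refine sum_congr rfl fun i _ => ?_
  have h2 : ((2 : ℝ) ^ m) ≠ 0 := by positivity
  congr 2
  · push_cast
    field_simp
  · push_cast
    field_simp
    ring

lemma sum_bound (n : ℕ) : ∀ m : ℕ, |∑ j ∈ range n, tm w m (vdc j)| ≤ 1 / (2 * 2 ^ m) := by
  induction n using Nat.strong_induction_on with
  | _ n ih =>
    intro m
    have hpow : (0 : ℝ) < 2 ^ m := by positivity
    have hd : ∀ q : ℕ, ∑ j ∈ range (2 * q), tm w m (vdc j) =
        ∑ j ∈ range q, tm w (m + 1) (vdc j) := by
      intro q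
      rw [sum_double]
      refine sum_congr rfl fun j _ => ?_
      rw [vdc_even, vdc_odd, tm_succ]
    have hB : (1 : ℝ) / (2 * 2 ^ (m + 1)) = 1 / (4 * 2 ^ m) := by
      rw [pow_succ]
      ring_nf
    have hB2 : (1 : ℝ) / (4 * 2 ^ m) + 1 / (4 * 2 ^ m) = 1 / (2 * 2 ^ m) := by
      field_simp
      norm_num
    have hBp : (0 : ℝ) ≤ 1 / (4 * 2 ^ m) := by positivity
    rcases Nat.even_or_odd' n with ⟨q, rfl | rfl⟩
    · rcases Nat.eq_zero_or_pos q with h | h
      · subst h
        simp
      · rw [hd]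
        have := ih q (by omega) (m + 1)
        rw [hB] at this
        linarith
    · rw [sum_range_succ, hd]
      have h1 := ih q (by omega) (m + 1)
      rw [hB] at h1
      have h2 := tm_bound (w := w) m (vdc (2 * q)) (vdc_mem _).1 (vdc_mem _).2.le
      calc _ ≤ |∑ j ∈ range q, tm w (m + 1) (vdc j)| + |tm w m (vdc (2 * q))| := abs_add_le _ _
        _ ≤ _ := by linarith

theorem s_SUM : S_SUM := by
  refine ⟨vdc_mem, fun w _ _ n => ?_⟩
  have h := sum_bound (w := w) n 0
  have e : ∀ x : ℝ, tm w 0 x = F w x + F w (1 - x) - 2 * J w := by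
    intro x
    simp [tm, P]
  simp only [e] at h
  refine h.trans ?_
  norm_num

end Pool.Agent.L7h99.WN
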